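import Pool.Agent.Lib.MP_24b811_al.FrClass

namespace Pool.Agent.Results.MP_24b811_al.Classification

open Pool.Agent.Lib.MP_24b811_al

universe u

/-- A locally moving subgroup `H` of F is isomorphic to a diagram group if and only if the
following holds for all `t` in `H` and all fixed points `a` of `t`: if `t` is the identity just to
the right of `a`, or some element of `H` is the identity on exactly one side of `a` near `a`, then
the map equal to `t` on `[0, a]` and to the identity on `[a, 1]` lies in `H`. -/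
theorem result (H : Subgroup ThompsonF)
    (hH : ∀ c x d : unitInterval, c < x → x < d →
      ∃ h ∈ H, (∀ y : unitInterval, y ≤ c ∨ d ≤ y → h.1 y = y) ∧ h.1 x ≠ x) :
    (∃ (S : Type u) (P : SemigroupPresentation S) (w : SqVertex P),
      Nonempty (H ≃* DiagramGroup P w)) ↔
    ∀ t ∈ H, ∀ a : unitInterval, t.1 a = a →
      ((∃ d, a < d ∧ ∀ y : unitInterval, a ≤ y → y ≤ d → t.1 y = y) ∨
        ∃ k ∈ H, ¬ ((∃ c, c < a ∧ ∀ y : unitInterval, c ≤ y → y ≤ a → k.1 y = y) ↔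
          ∃ d, a < d ∧ ∀ y : unitInterval, a ≤ y → y ≤ d → k.1 y = y)) →
      ∃ s ∈ H, ∀ y : unitInterval, (y ≤ a → s.1 y = t.1 y) ∧ (a ≤ y → s.1 y = y) := by
  refine ⟨fun ⟨_, _, _, ⟨e⟩⟩ t ht a ta h => ?_, Fr.diagram_of_cond⟩
  have L := Gc.lmF.sub H hH
  rcases h with h | ⟨k, hk, h⟩
  · obtain ⟨s, hs⟩ := L.cut_side (Gc.threeProp_of_equiv e) (Gc.germF.sub H) (t := ⟨t, ht⟩)
      (Or.inr h)
    exact ⟨s.1, s.2, hs⟩
  rcases (show 0 ≤ a from a.2.1).eq_or_lt with rfl | h0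
  · exact Fr.good_zero t ht ta
  rcases (show a ≤ 1 from a.2.2).eq_or_lt with rfl | h1
  · exact Fr.good_one t ht ta
  obtain ⟨s, hs⟩ := L.cut_at (Gc.threeProp_of_equiv e) (Gc.twoProp_of_equiv e) (Gc.germF.sub H)
    (Gc.germF'.sub H) (k := ⟨k, hk⟩) (t := ⟨t, ht⟩) h0 h1 h ta
  exact ⟨s.1, s.2, hs⟩

end Pool.Agent.Results.MP_24b811_al.Classification
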