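import Pool.Agent.Lib.MP_24b811_al.TcEnds
import Pool.Agent.Lib.MP_24b811_al.FpMain

namespace Pool.Agent.Results.MP_24b811_al.ClosedSubgroups

open Pool.Agent.Lib.MP_24b811_al

universe u v

/-- For a group `G` the following are equivalent: `G` is a diagram group with no free subgroup of
rank two; `G` is a diagram group that embeds in F; `G` is isomorphic to a closed subgroup of F. -/
theorem result (G : Type v) [Group G] : List.TFAE
    [(∃ (S : Type u) (P : SemigroupPresentation S) (w : SqVertex P),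
        Nonempty (G ≃* DiagramGroup P w)) ∧
      ¬ ∃ f : FreeGroup (Fin 2) →* G, Function.Injective f,
    (∃ (S : Type u) (P : SemigroupPresentation S) (w : SqVertex P),
        Nonempty (G ≃* DiagramGroup P w)) ∧
      ∃ f : G →* ThompsonF, Function.Injective f,
    ∃ K : Subgroup ThompsonF, Nonempty (G ≃* K) ∧
      ∀ t ∈ K, ∀ a : unitInterval, IsDyadic a → t.1 a = a →
        ∃ s ∈ K, ∀ y : unitInterval, (y ≤ a → s.1 y = t.1 y) ∧ (a ≤ y → s.1 y = y)] := by
  tfae_have 1 → 3 := fun ⟨⟨_, _, _, ⟨e⟩⟩, h⟩ => by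
    obtain ⟨ρ, h1, h2⟩ := Tc.closed_of_equiv e fun f hf =>
      h ⟨f.comp (FreeGroup.freeGroupCongr finTwoEquiv).toMonoidHom,
        hf.comp (FreeGroup.freeGroupCongr finTwoEquiv).injective⟩
    exact ⟨ρ.range, ⟨MonoidHom.ofInjective h1⟩, h2⟩
  tfae_have 3 → 2 := fun ⟨K, ⟨e⟩, h⟩ => by
    obtain ⟨e'⟩ := Fr.diagram_of_closed.{u} (H := K) h
    exact ⟨⟨_, _, _, ⟨e.trans e'⟩⟩, K.subtype.comp e.toMonoidHom,
      Subtype.val_injective.comp e.injective⟩
  tfae_have 2 → 1 := fun ⟨h, ρ, hρ⟩ => ⟨h, fun ⟨f, hf⟩ =>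
    Fp.plaF.no_free ((ρ.comp f).comp (FreeGroup.freeGroupCongr finTwoEquiv.symm).toMonoidHom)
      ((hρ.comp hf).comp (FreeGroup.freeGroupCongr finTwoEquiv.symm).injective)⟩
  tfae_finish

end Pool.Agent.Results.MP_24b811_al.ClosedSubgroups
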