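import Pool.Agent.Lib.MP_24b811_al.FrSimple

namespace Pool.Agent.Results.MP_24b811_al.DerivedSubgroup

open Pool.Agent.Lib.MP_24b811_al

universe u

/-- For `r ≥ 3`, Thompson's group F has a subgroup `H` isomorphic to the diagram group of the
presentation with one letter `x` and one relation `x = x ^ r`, based at `x` (the Higman-Thompson
group `F_r`), whose commutator subgroup is simple and is not isomorphic to any diagram group. -/
theorem result (r : ℕ) (hr : 3 ≤ r) (P : SemigroupPresentation Unit)
    (hP : P.rels = {([()], List.replicate r ())}) (w : SqVertex P) (hw : w.word = [()]) :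
    ∃ H : Subgroup ThompsonF, Nonempty (H ≃* DiagramGroup P w) ∧ IsSimpleGroup (commutator H) ∧
      ∀ (S : Type u) (Q : SemigroupPresentation S) (v : SqVertex Q),
        IsEmpty (commutator H ≃* DiagramGroup Q v) := by
  obtain ⟨m, rfl⟩ : ∃ m, r = m + 1 + 1 := ⟨r - 2, by omega⟩
  exact ⟨Fr.img hP w hw, ⟨(Fr.imgEquiv hP w hw).symm⟩, Fr.simple_range hP w hw, fun S Q v =>
    ⟨fun e => Fr.not_three_range hP w hw (by omega) (Gc.threeProp_of_equiv e)⟩⟩

end Pool.Agent.Results.MP_24b811_al.DerivedSubgroup
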