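import Pool.Agent.Lib.MP_24b811_al.PlFinal

namespace Pool.Agent.Results.MP_24b811_al.FinitelyPresented

open Pool.Agent.Lib.MP_24b811_al

universe u

/-- Let `H` be a group of orientation preserving piecewise linear homeomorphisms of `[0,1]` (for
example a subgroup of F) that is finitely presented, or almost finitely presented, or a quotient of
an almost finitely presented group without free subgroups of rank two. Then `H` contains a copy of
F, or it is free abelian of finite rank and isomorphic to a diagram group. -/
theorem result (H : Subgroup (unitInterval ≃ₜ unitInterval)) (hH : ∀ g ∈ H, IsPL g)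
    (hfp : Group.IsFinitelyPresented H ∨ AlmostFP H ∨
      ∃ (Γ : Type) (_ : Group Γ) (π : Γ →* H), AlmostFP Γ ∧
        Function.Surjective π ∧ ∀ f : FreeGroup Bool →* Γ, ¬ Function.Injective f) :
    (∃ f : ThompsonF →* H, Function.Injective f) ∨
    ((∃ n : ℕ, Nonempty (H ≃* Multiplicative (Fin n → ℤ))) ∧
      ∃ (S : Type u) (P : SemigroupPresentation S) (w : SqVertex P),
        Nonempty (H ≃* DiagramGroup P w)) := by
  refine or_iff_not_imp_left.2 fun hF => ?_
  letI := Fp.homAct H
  have P := Fp.plg H hH
  obtain ⟨e, he⟩ := Fp.exists_F_embed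
  have hF' : Fp.NoF H := fun f hf => hF ⟨f.comp e, hf.comp he⟩
  have key : Group.FG H ∧ ∀ x y : H, x * y = y * x := by
    rcases hfp with h | h | ⟨Γ, _, π, h, hπ, hf⟩
    · exact P.comm_of_cover hF' (Fp.almostFP_of_fp h) (MonoidHom.id H) Function.surjective_id
        P.pla.no_free
    · exact P.comm_of_cover hF' h (MonoidHom.id H) Function.surjective_id P.pla.no_free
    · exact P.comm_of_cover hF' h π hπ hf
  exact P.abelian_case key.1 key.2

end Pool.Agent.Results.MP_24b811_al.FinitelyPresented
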